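import Pool.Agent.H732R3.BigR
import Pool.Agent.H732R3.QuarterB

/-!
# Many simultaneous primes `q r_j + 1` up to bounded factors

For every `ℓ = l + 1 ≥ 1` there is `C` such that for all positive integers `r_1, ..., r_ℓ` there are
factors `1 ≤ f_j ≤ C`, with distinct products `f_j r_j`, such that for every `η > 0` there are arbitrarily
large `x` with at least `x ^ (1 - η)` integers `x ≤ q < 2 x` for which all the `q f_j r_j + 1` are prime.

A quantitative version of the coloured Maynard-Tao theorem of the starting files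
(`Pool.Agent.H362R2.CM`) is combined with the density Hales-Jewett theorem (`Pool.Agent.Helper903.DHJ`).
-/

namespace Pool.Agent.Results.MP_d018b2_nt.BoundedFactors

open Filter

theorem result (l : ℕ) : ∃ C : ℕ, ∀ r : Fin (l + 1) → ℕ, (∀ j, 1 ≤ r j) →
    ∃ f : Fin (l + 1) → ℕ, (∀ j, 1 ≤ f j ∧ f j ≤ C) ∧ Function.Injective (fun j => f j * r j) ∧
    ∀ η : ℝ, 0 < η → ∃ᶠ x : ℝ in atTop, x ^ (1 - η) ≤
      ({q : ℕ | x ≤ q ∧ (q : ℝ) < 2 * x ∧ ∀ j, (q * (f j * r j) + 1).Prime}.ncard : ℝ) := by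
  obtain ⟨C, hC⟩ := Pool.Agent.H732R3.BigQ.multiplicativeB Pool.Agent.H732R3.BigQ.quarterB l 1 one_ne_zero
  refine ⟨C, fun r hr => ?_⟩
  obtain ⟨f, h1, h2, h3⟩ := hC r hr (fun i => isCoprime_one_right)
  refine ⟨f, h1, h2, fun η hη => (h3.dyadic η hη).mono fun x hx => hx.trans (le_of_eq ?_)⟩
  congr 2
  ext q
  constructor
  · rintro ⟨h, h4, h5⟩
    refine ⟨h4, h5, fun j => ?_⟩
    obtain ⟨p, hp, hpe⟩ := h j
    have e : p = q * (f j * r j) + 1 := by
      have : (p : ℤ) = ((q * (f j * r j) + 1 : ℕ) : ℤ) := by rw [hpe]; push_cast; ring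
      exact_mod_cast this
    rw [← e]; exact hp
  · rintro ⟨h4, h5, h⟩
    exact ⟨fun j => ⟨_, h j, by push_cast; ring⟩, h4, h5⟩

end Pool.Agent.Results.MP_d018b2_nt.BoundedFactors
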